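import Pool.Agent.Helper65.Clique.Game
import Pool.Agent.Helper65.CG.Defs2

/-!
# Project UB, module G1: Breaker wins if there is an invariant
-/

set_option autoImplicit false

namespace Pool.Agent.Helper65.CG

open scoped Classical
open Pool.Agent.Helper65.CliqueGame

variable {n q m : ℕ}

theorem breaker_wins_inv (hm : 1 ≤ m)
    (Inv : List (Finset (Sym2 (Fin n))) → Finset (Sym2 (Fin n)) → Prop)
    (hinit : ∀ R, R ⊆ edges n → R.card ≤ m → Inv [R] ∅)
    (hstep : ∀ Rs B, Inv Rs B → (∀ R ∈ Rs, R.card ≤ m) → Rs.Pairwise Disjoint →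
      Disjoint (uni Rs) B → uni Rs ⊆ edges n → B ⊆ edges n → free (uni Rs) B ≠ ∅ →
      ∃ S, Legal m (uni Rs) B S ∧ Inv Rs (B ∪ S) ∧
        ∀ R, R ⊆ free (uni Rs) (B ∪ S) → R.card ≤ m → Inv (R :: Rs) (B ∪ S))
    (hfin : ∀ Rs B, Inv Rs B → (∀ R ∈ Rs, R.card ≤ m) → Rs.Pairwise Disjoint →
      Disjoint (uni Rs) B → uni Rs ⊆ edges n → B ⊆ edges n → ¬ HasClique q (uni Rs)) :
    ¬ MakerWins n m q true ∅ ∅ := by
  have key : ∀ (t : Bool) (M B : Finset (Sym2 (Fin n))), MakerWins n m q t M B →
      ∀ Rs, uni Rs = M → (∀ R ∈ Rs, R.card ≤ m) → Rs.Pairwise Disjoint → Disjoint M B →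
        M ⊆ edges n → B ⊆ edges n →
        (t = false → ¬ Inv Rs B) ∧
        (t = true → ¬ (Inv Rs B ∧ ∀ R, R ⊆ free M B → R.card ≤ m → Inv (R :: Rs) B)) := by
    intro t M B h
    induction h with
    | finish t M B hfree hcl =>
      intro Rs hM hcard hpw hdisj hMe hBe
      subst hM
      exact ⟨fun _ hI => hfin Rs B hI hcard hpw hdisj hMe hBe hcl,
        fun _ hI => hfin Rs B hI.1 hcard hpw hdisj hMe hBe hcl⟩
    | maker M B S hfree hleg _ ih =>
      intro Rs hM hcard hpw hdisj hMe hBe
      refine ⟨fun h => by simp at h, fun _ hI => ?_⟩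
      have hScard : S.card ≤ m := by rw [hleg.2]; exact min_le_left _ _
      have hSB : Disjoint S B := by
        rw [Finset.disjoint_left]
        intro e he heB
        have := hleg.1 he
        unfold free at this
        rw [Finset.mem_sdiff, Finset.mem_union] at this
        exact this.2 (Or.inr heB)
      have hSe : S ⊆ edges n := by
        intro e he
        have := hleg.1 he
        unfold free at this
        exact (Finset.mem_sdiff.1 this).1
      have := (ih (S :: Rs) (by rw [uni_cons, hM, Finset.union_comm])
        (by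
          intro R hR
          rcases List.mem_cons.1 hR with rfl | hR
          · exact hScard
          · exact hcard R hR)
        (List.pairwise_cons.2 ⟨fun R hR => by
          rw [Finset.disjoint_left]
          intro e heS heR
          have := hleg.1 heS
          unfold free at this
          rw [Finset.mem_sdiff, Finset.mem_union, ← hM] at this
          exact this.2 (Or.inl (mem_uni.2 ⟨R, hR, heR⟩)), hpw⟩)
        (Finset.disjoint_union_left.2 ⟨hdisj, hSB⟩) (Finset.union_subset hMe hSe) hBe).1 rfl
      exact this (hI.2 S hleg.1 hScard)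
    | breaker M B hfree _ ih =>
      intro Rs hM hcard hpw hdisj hMe hBe
      refine ⟨fun _ hI => ?_, fun h => by simp at h⟩
      subst hM
      obtain ⟨S, hS, hI', hR⟩ := hstep Rs B hI hcard hpw hdisj hMe hBe hfree
      have hSM : Disjoint (uni Rs) S := by
        rw [Finset.disjoint_left]
        intro e he heS
        have := hS.1 heS
        unfold free at this
        rw [Finset.mem_sdiff, Finset.mem_union] at this
        exact this.2 (Or.inl he)
      have hSe : S ⊆ edges n := by
        intro e he
        have := hS.1 he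
        unfold free at this
        exact (Finset.mem_sdiff.1 this).1
      exact (ih S hS Rs rfl hcard hpw (Finset.disjoint_union_right.2 ⟨hdisj, hSM⟩) hMe
        (Finset.union_subset hBe hSe)).2 rfl ⟨hI', hR⟩
  intro hw
  cases hw with
  | finish _ _ _ hfree hcl =>
    have h1 := hinit ∅ (Finset.empty_subset _) (by simp)
    exact hfin [∅] ∅ h1 (by simp) (by simp) (by simp) (by simp) (by simp) (by simpa using hcl)
  | maker _ _ S hfree hleg hw =>
    have hScard : S.card ≤ m := by rw [hleg.2]; exact min_le_left _ _
    have hSe : S ⊆ edges n := by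
      intro e he
      have := hleg.1 he
      unfold free at this
      exact (Finset.mem_sdiff.1 this).1
    exact (key false (∅ ∪ S) ∅ hw [S] (by simp) (by simpa using hScard) (by simp)
      (by simp) (by simpa using hSe) (by simp)).1 rfl (hinit S hSe hScard)

theorem h46_clique_anti {q q' : ℕ} (h : q' ≤ q) {M : Finset (Sym2 (Fin n))}
    (hM : HasClique q M) : HasClique q' M := by
  obtain ⟨A, hA, hA'⟩ := hM
  obtain ⟨A', h1, h2⟩ := Finset.exists_subset_card_eq (show q' ≤ A.card by omega)
  exact ⟨A', h2, fun u hu v hv => hA' u (h1 hu) v (h1 hv)⟩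

theorem wins_anti {q q' : ℕ} (h : q' ≤ q) {t : Bool} {M B : Finset (Sym2 (Fin n))}
    (hw : MakerWins n m q t M B) : MakerWins n m q' t M B := by
  induction hw with
  | finish t M B hfree hcl => exact .finish t M B hfree (h46_clique_anti h hcl)
  | maker M B S hfree hleg _ ih => exact .maker M B S hfree hleg ih
  | breaker M B hfree _ ih => exact .breaker M B hfree ih

end Pool.Agent.Helper65.CG
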