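import Pool.Agent.Helper65.CG.Defs2

/-!
# Project UB, module T1: ordered tuples, enumeration of the vertices of a round
-/

set_option autoImplicit false

namespace Pool.Agent.Helper65.CG

open scoped Classical
open Pool.Agent.Helper65.CliqueGame

variable {n q m : ℕ}

theorem h46_nearT {ℓ : Sym2 (Fin n) → ℕ} (hℓ : Lab m ℓ) {κ : ℕ} {A : Finset (Fin n)}
    (hA : A.card = q) (h1 : Alive ℓ (inn A)) (h2 : ((inn A).filter (fun e => ℓ e = 0)).card ≤ κ) :
    NearT ℓ κ (A.orderEmbOfFin hA) := by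
  have hin : ∀ i j : Fin q, i ≠ j → s(A.orderEmbOfFin hA i, A.orderEmbOfFin hA j) ∈ inn A := by
    intro i j hij
    rw [mem_inn]
    refine ⟨?_, ?_⟩
    · rw [Sym2.mk_isDiag_iff]
      exact fun h => hij ((A.orderEmbOfFin hA).injective h)
    · intro v hv
      rw [Sym2.mem_iff] at hv
      rcases hv with rfl | rfl
      · exact A.orderEmbOfFin_mem hA i
      · exact A.orderEmbOfFin_mem hA j
  refine ⟨(A.orderEmbOfFin hA).injective, fun i j => ?_, le_trans ?_ h2⟩
  · unfold lk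
    by_cases hij : i = j
    · subst hij
      rw [hℓ.diag _ (Sym2.mk_isDiag_iff.2 rfl)]
      exact zero_ne_one
    · exact h1 _ (hin i j hij)
  · refine Finset.card_le_card_of_injOn
      (fun p => s(A.orderEmbOfFin hA p.1, A.orderEmbOfFin hA p.2)) ?_ ?_
    · intro p hp
      have hp' := Finset.mem_filter.1 (Finset.mem_coe.1 hp)
      exact Finset.mem_coe.2 (Finset.mem_filter.2 ⟨hin _ _ hp'.2.1.ne, hp'.2.2⟩)
    · intro p hp p' hp' he
      have g1 := (Finset.mem_filter.1 (Finset.mem_coe.1 hp)).2.1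
      have g2 := (Finset.mem_filter.1 (Finset.mem_coe.1 hp')).2.1
      have he' : s(A.orderEmbOfFin hA p.1, A.orderEmbOfFin hA p.2) =
        s(A.orderEmbOfFin hA p'.1, A.orderEmbOfFin hA p'.2) := he
      rcases Sym2.eq_iff.1 he' with ⟨a, b⟩ | ⟨a, b⟩
      · exact Prod.ext ((A.orderEmbOfFin hA).injective a) ((A.orderEmbOfFin hA).injective b)
      · have a' := (A.orderEmbOfFin hA).injective a
        have b' := (A.orderEmbOfFin hA).injective b
        rw [a', b'] at g1
        exact absurd g1 (not_lt.2 g2.le)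

theorem tuples {ℓ : Sym2 (Fin n) → ℕ} (hℓ : Lab m ℓ) (κ : ℕ) :
    ∃ A : Finset (Fin q → Fin n), A.card = (near ℓ q κ).card ∧ ∀ Z ∈ A, NearT ℓ κ Z := by
  have hmem : ∀ A : Finset (Fin n), A ∈ near ℓ q κ → A.card = q ∧ Alive ℓ (inn A) ∧
      ((inn A).filter (fun e => ℓ e = 0)).card ≤ κ := fun A hA => (Finset.mem_filter.1 hA).2
  let φ : {A // A ∈ near ℓ q κ} → (Fin q → Fin n) := fun A =>
    A.1.orderEmbOfFin (hmem A.1 A.2).1
  have hφ : Function.Injective φ := by
    intro A B h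
    have h1 : Set.range (φ A) = Set.range (φ B) := by rw [h]
    have h2 : Set.range (φ A) = (A.1 : Set (Fin n)) := A.1.range_orderEmbOfFin (hmem A.1 A.2).1
    have h3 : Set.range (φ B) = (B.1 : Set (Fin n)) := B.1.range_orderEmbOfFin (hmem B.1 B.2).1
    rw [h2, h3] at h1
    exact Subtype.ext (Finset.coe_injective h1)
  refine ⟨(near ℓ q κ).attach.image φ, ?_, ?_⟩
  · rw [Finset.card_image_of_injective _ hφ, Finset.card_attach]
  · intro Z hZ
    obtain ⟨A, -, rfl⟩ := Finset.mem_image.1 hZ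
    obtain ⟨h1, h2, h3⟩ := hmem A.1 A.2
    exact h46_nearT hℓ h1 h2 h3

theorem exists_enum {ℓ : Sym2 (Fin n) → ℕ} (hm : 1 ≤ m) (hn : 1 ≤ n) (hℓ : Lab m ℓ) :
    ∃ vt : ℕ → Fin (2 * m) → Fin n, Enum m ℓ vt := by
  let x₀ : Fin n := ⟨0, hn⟩
  have key : ∀ a : ℕ, ∃ f : Fin (2 * m) → Fin n, 2 ≤ a → ∀ x, (∃ e, ℓ e = a ∧ x ∈ e) →
      ∃ t, f t = x := by
    intro a
    by_cases ha : 2 ≤ a
    · let W : Finset (Fin n) := Finset.univ.filter (fun x => ∃ e, ℓ e = a ∧ x ∈ e)
      have hW : W.card ≤ 2 * m := by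
        have h1 : W ⊆ (Finset.univ.filter (fun e => ℓ e = a)).biUnion (fun e => e.toFinset) := by
          intro x hx
          obtain ⟨e, he, hxe⟩ := (Finset.mem_filter.1 hx).2
          exact Finset.mem_biUnion.2 ⟨e, Finset.mem_filter.2 ⟨Finset.mem_univ _, he⟩,
            Sym2.mem_toFinset.2 hxe⟩
        refine (Finset.card_le_card h1).trans (Finset.card_biUnion_le.trans ?_)
        have h2 : ∀ e ∈ Finset.univ.filter (fun e => ℓ e = a), e.toFinset.card ≤ 2 := by
          intro e _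
          rw [Sym2.card_toFinset]
          split <;> omega
        refine (Finset.sum_le_card_nsmul _ _ 2 h2).trans ?_
        have h3 := hℓ.size a ha
        simp only [smul_eq_mul]
        omega
      refine ⟨fun t => if h : (t : ℕ) < W.card then (W.equivFin.symm ⟨t, h⟩ : Fin n) else x₀,
        fun _ x hx => ?_⟩
      have hxW : x ∈ W := Finset.mem_filter.2 ⟨Finset.mem_univ _, hx⟩
      refine ⟨⟨(W.equivFin ⟨x, hxW⟩ : ℕ), (W.equivFin ⟨x, hxW⟩).2.trans_le hW⟩, ?_⟩
      simp only [Fin.is_lt, dif_pos, Fin.eta, Equiv.symm_apply_apply]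
    · exact ⟨fun _ => x₀, fun h => absurd h ha⟩
  choose vt h using key
  exact ⟨vt, fun a x ha hx => h a ha x hx⟩

end Pool.Agent.Helper65.CG
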